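import Mathlib
import Pool.Agent.H62.Defs
import Pool.Agent.H62.Main2

/-!
# Area minimising normalised univalent maps of finitely connected domains

Let `D` be a domain of finite connectivity `m + 1` containing `0`.

* For a component `E` of the complement of `D` in the sphere there is a map in `S(D)` onto a
  circular slit disc (with exactly `m` slits) carrying `E` to the outer circle if and only if `E`
  has at least two points; this map and its radius are unique.
* Every map in `S(D)` onto a circular slit disc is of this form for exactly one component, and its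
  Dirichlet integral is `π R²`.
* The minimisers of the Dirichlet integral over `S(D)` exist and are exactly those circular slit
  maps whose radius is the smallest one.
* If all components are single points then the Dirichlet integral is infinite on all of `S(D)`.
-/

open MeasureTheory Set Complex Metric Filter Topology

namespace Pool.Agent.Results.MP_83407a_an.AreaMinimisers

open Pool.Agent.H62

theorem result {D : Set ℂ} {m : ℕ} (hD : IsOpen D) (hDc : IsConnected D) (h0 : (0 : ℂ) ∈ D)
    (hm : (comps D).ncard = m + 1) :
    (∀ E ∈ comps D, (∃ R F, IsSlitMap D m E R F) ↔ E.Nontrivial) ∧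
    (∀ E ∈ comps D, ∀ R R' F F', IsSlitMap D m E R F → IsSlitMap D m E R' F' →
      R = R' ∧ EqOn F F' D) ∧
    (∀ R F m', InS D F → IsSlitDisc (F '' D) R m' →
      m' = m ∧ dirichlet D F = ENNReal.ofReal (Real.pi * R ^ 2) ∧
        ∃! E, E ∈ comps D ∧ IsSlitMap D m E R F) ∧
    ((∃ E ∈ comps D, E.Nontrivial) → (∃ f, IsMinimiser D f) ∧
      ∀ f, IsMinimiser D f ↔ ∃ E ∈ comps D, ∃ R, IsSlitMap D m E R f ∧
        ∀ E' ∈ comps D, ∀ R' F', IsSlitMap D m E' R' F' → R ≤ R') ∧
    ((∀ E ∈ comps D, ¬ E.Nontrivial) → ∀ f, InS D f → dirichlet D f = ⊤) :=
  main2 hD hDc h0 hm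

end Pool.Agent.Results.MP_83407a_an.AreaMinimisers
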